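import Pool.Agent.Work.MP_c35292_co.Main120

namespace Pool.Agent.Results.MP_c35292_co.Cell120

open Pool.Agent.Work.MP_c35292_co

/-- The vertex set of the 120-cell, at every scale, is subsoluble. -/
theorem result (r : ℝ) (hr : 0 < r) : IsSubsoluble ((fun x => r • x) '' cell120) :=
  cell120_subsoluble r hr

end Pool.Agent.Results.MP_c35292_co.Cell120
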