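import Pool.Agent.Work.MP_c35292_co.Main600

namespace Pool.Agent.Results.MP_c35292_co.Cell600

open Pool.Agent.Work.MP_c35292_co

/-- The vertex set of the 600-cell, at every scale, is itself a soluble set. -/
theorem result (r : ℝ) (_hr : 0 < r) : IsSolubleSet ((fun x => r • x) '' cell600) :=
  C600.cell600_soluble r

end Pool.Agent.Results.MP_c35292_co.Cell600
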